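import Mathlib
import Pool.Agent.Helper17.FF.PicDiv
import Pool.Agent.Helper9.M.FT

/-!
# Base change and finiteness for functions with divisor divisible by `n`

* `bcf0`, `bcf1`: over a constant extension of an algebraically closed field of characteristic zero,
  a function whose order is divisible by `n` at all generic places is the product of a function from
  the base and an `n`-th power.
* `bcf2`: over an algebraically closed field of characteristic zero, the functions whose order is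
  divisible by `n` outside a finite set of places are finite in number up to `n`-th powers.
* `bCF`: both together.
-/

set_option linter.unusedSectionVars false
set_option autoImplicit false

namespace Pool.Agent.FF45

open FF VC WithZero Polynomial IntermediateField
open scoped TensorProduct

universe u

section base

variable {k Ω F M : Type u} [Field k] [Field Ω] [Field F] [Field M] [Algebra k Ω] [Algebra k F]
  [Algebra Ω M] [Algebra F M] [Algebra k M] [IsScalarTower k Ω M] [IsScalarTower k F M]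
  [IsAlgClosed k] [IsAlgClosed Ω] [CharZero k] (hM : IsConstExt k Ω F M)
  (hF : IsFunctionField k F)

include hM hF

/-- A function whose divisor is the lift of a divisor of degree zero up to `n` times a divisor is
a function from below times an `n`-th power (the functional form of `FF.divisible_descent`). -/
theorem bcf0 {D : Place k F →₀ ℤ} (hD : deg D = 0) {n : ℕ} (hn : n ≠ 0)
    {Y : Place Ω M →₀ ℤ} {h : M} (hh : h ≠ 0)
    (hY : lift hM hF D = n • Y + dv (hM.isFunctionField hF) h) :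
    ∃ (f : F) (w : M), f ≠ 0 ∧ w ≠ 0 ∧ h = algebraMap F M f * w ^ n := by
  classical
  obtain ⟨g, hg⟩ := exists_genus hF
  have hMF := hM.isFunctionField hF
  have hgM := isGenus_constExt hM hF hg
  have hinf := infinite_place hF
  obtain ⟨x, hx, -⟩ := id hF
  have hdegY : deg Y = 0 := by
    have h1 := congrArg deg hY
    rw [deg_lift, hD, map_add, map_nsmul, deg_dv hMF hh, add_zero, nsmul_eq_mul] at h1
    rcases mul_eq_zero.mp h1.symm with h2 | h2
    · exact absurd (by exact_mod_cast h2) hn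
    · exact h2
  obtain ⟨B, hB0, hBS, hBdeg, hB1⟩ := exists_add_points hMF hgM (Set.range (ab hM hF))
    (Set.infinite_range_of_injective (ab_injective hM hF)) hdegY g le_rfl
  have hell1 : (1 : ℤ) ≤ ell (Y + B) := by
    have := ell_ge hgM (Y + B)
    rw [map_add, hdegY, hBdeg] at this
    linarith
  obtain ⟨B', h', hh', hB'0, hB'⟩ := exists_effective hMF (X := Y + B) (by
    have : (0 : ℤ) < ell (Y + B) := by linarith
    exact_mod_cast this)
  have hellB' : ell B' = 1 := by
    rw [hB', ell_add_dv hMF _ hh']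
    have : 1 ≤ ell (Y + B) := by exact_mod_cast hell1
    omega
  have hgenB : ∀ Q (φ : F →ₐ[k] Ω), Gen Q φ → B Q = 0 := by
    intro Q φ hφ
    by_contra hne
    obtain ⟨P, rfl⟩ := hBS Q hne
    exact not_over_of_gen hφ (ab_over hM hF P)
  -- the function
  have hH : h' ^ n / h ≠ 0 := div_ne_zero (pow_ne_zero _ hh') hh
  have hdvH : dv hMF (h' ^ n / h) = n • B' - (n • B + lift hM hF D) := by
    rw [dv_div hMF (pow_ne_zero _ hh') hh, dv_pow hMF hh', hB', hY, smul_add, smul_add]
    abel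
  have hbot : ∀ a : Ω, a ∉ (⊥ : IntermediateField k Ω) →
      Transcendental (⊥ : IntermediateField k Ω) a := by
    intro a ha halg
    apply ha
    have h1 : IsAlgebraic k a := by
      have h2 : Algebra.IsAlgebraic k (⊥ : IntermediateField k Ω) := inferInstance
      exact (isIntegral_trans (R := k) (A := (⊥ : IntermediateField k Ω)) a
        halg.isIntegral).isAlgebraic
    obtain ⟨c, hc⟩ := exists_const_of_not_transcendental (k := k) (f := a) (not_not.mpr h1)
    rw [IntermediateField.mem_bot]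
    exact ⟨c, hc⟩
  have hrig := rigidity hM hF ⊥ hbot hB'0 hellB' hn (A := n • B + lift hM hF D) (by
    intro Q hQ φ hφ
    exfalso
    apply hQ
    rw [Finsupp.add_apply, Finsupp.smul_apply, hgenB Q φ hφ, smul_zero, lift_gen hM hF D hφ,
      add_zero]) hH (fun Q => by
      rw [← dv_apply hMF, hdvH, Finsupp.sub_apply, Finsupp.smul_apply, nsmul_eq_mul])
  have hgenB' : ∀ Q (φ : F →ₐ[k] Ω), Gen Q φ → B' Q = 0 := by
    intro Q φ hφ
    by_contra hne
    have h1 := hrig Q hne φ hφ x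
    rw [IntermediateField.mem_bot] at h1
    obtain ⟨c, hc⟩ := h1
    apply hx
    have h2 : x = algebraMap k F c := by
      apply φ.toRingHom.injective
      change φ x = φ (algebraMap k F c)
      rw [AlgHom.commutes, hc]
    rw [h2]
    exact isAlgebraic_algebraMap c
  obtain ⟨c, f, hc0, hf0, hcf⟩ := principal_descent hM hF hH (fun Q hQ => by
    rcases hM.over_or_gen hF Q with ⟨P, hP⟩ | ⟨φ, hφ⟩
    · exact ⟨P, hP⟩
    · exfalso
      apply hQ
      rw [← dv_apply hMF, hdvH, Finsupp.sub_apply, Finsupp.add_apply, Finsupp.smul_apply,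
        Finsupp.smul_apply, hgenB Q φ hφ, hgenB' Q φ hφ, lift_gen hM hF D hφ]
      simp)
  obtain ⟨c₁, hc₁⟩ := IsAlgClosed.exists_pow_nat_eq c (Nat.pos_of_ne_zero hn)
  have hc₁0 : c₁ ≠ 0 := by
    rintro rfl
    rw [zero_pow hn] at hc₁
    exact hc0 hc₁.symm
  have hcM : algebraMap Ω M c₁ ≠ 0 := (_root_.map_ne_zero _).mpr hc₁0
  have hfM : algebraMap F M f ≠ 0 := (_root_.map_ne_zero _).mpr hf0
  refine ⟨f⁻¹, h' / algebraMap Ω M c₁, inv_ne_zero hf0, div_ne_zero hh' hcM, ?_⟩
  have h3 : algebraMap Ω M c = algebraMap Ω M c₁ ^ n := by rw [← hc₁, map_pow]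
  rw [h3] at hcf
  rw [map_inv₀, div_pow]
  have h4 : algebraMap Ω M c₁ ^ n ≠ 0 := pow_ne_zero _ hcM
  field_simp
  field_simp at hcf
  rw [hcf]
  ring

/-- A function whose order is divisible by `n` at all generic places is a function from below times
an `n`-th power. -/
theorem bcf1 {n : ℕ} (hn : n ≠ 0) {h : M} (hh : h ≠ 0)
    (hgen : ∀ (Q : Place Ω M) (φ : F →ₐ[k] Ω), Gen Q φ → (n : ℤ) ∣ ord Q.ring h) :
    ∃ (f : F) (w : M), f ≠ 0 ∧ w ≠ 0 ∧ h = algebraMap F M f * w ^ n := by
  classical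
  have hMF := hM.isFunctionField hF
  have hinf := infinite_place hF
  obtain ⟨P₀⟩ : Nonempty (Place k F) := inferInstance
  obtain ⟨D, hDdef⟩ : ∃ D : Place k F →₀ ℤ,
      D = (dv hMF h).comapDomain (ab hM hF) (ab_injective hM hF).injOn := ⟨_, rfl⟩
  have hDP : ∀ P, D P = dv hMF h (ab hM hF P) := fun P => by
    rw [hDdef, Finsupp.comapDomain_apply]
  have hdvd : ∀ Q, (n : ℤ) ∣ (dv hMF h - lift hM hF D) Q := by
    intro Q
    rcases hM.over_or_gen hF Q with ⟨P, hP⟩ | ⟨φ, hφ⟩
    · have hQ : Q = ab hM hF P := Over.eq hM hF hP (ab_over hM hF P)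
      rw [hQ, Finsupp.sub_apply, lift_ab, hDP, sub_self]
      exact dvd_zero _
    · rw [Finsupp.sub_apply, lift_gen hM hF D hφ, sub_zero, dv_apply]
      exact hgen Q φ hφ
  obtain ⟨Z, hZ⟩ : ∃ Z : Place Ω M →₀ ℤ, dv hMF h - lift hM hF D = n • Z := by
    refine ⟨(dv hMF h - lift hM hF D).mapRange (fun z => z / n) (by simp), ?_⟩
    ext Q
    rw [Finsupp.smul_apply, Finsupp.mapRange_apply, nsmul_eq_mul]
    exact (Int.mul_ediv_cancel' (hdvd Q)).symm
  have hdeg : deg D = - (n * deg Z) := by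
    have h1 := congrArg deg hZ
    rw [map_sub, deg_lift, deg_dv hMF hh, map_nsmul, nsmul_eq_mul, zero_sub] at h1
    rw [← h1, neg_neg]
  obtain ⟨f, w, hf, hw, e⟩ := bcf0 hM hF (D := D + n • (deg Z • Finsupp.single P₀ 1)) (by
    rw [map_add, map_nsmul, map_zsmul, deg_single, hdeg]
    simp) hn (Y := deg Z • Finsupp.single (ab hM hF P₀) 1 - Z) hh (by
    rw [map_add, map_nsmul, map_zsmul, lift_single, smul_sub, ← hZ]
    abel)
  exact ⟨f, w, hf, hw, e⟩

end base

/-- Functions with order divisible by `n` outside a finite set of places: finitely many up to `n`-th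
powers. -/
theorem bcf2 {k F : Type} [Field k] [IsAlgClosed k] [CharZero k] [Field F] [Algebra k F]
    (hF : IsFunctionField k F) {n : ℕ} (hn : 0 < n) (S : Finset (Place k F)) :
    ∃ T : Finset F, (∀ t ∈ T, t ≠ 0 ∧ ∀ P ∉ S, (n : ℤ) ∣ ord P.ring t) ∧
      ∀ f : F, f ≠ 0 → (∀ P ∉ S, (n : ℤ) ∣ ord P.ring f) →
        ∃ t ∈ T, ∃ w : F, w ≠ 0 ∧ f = t * w ^ n := by
  classical
  obtain ⟨T, hT0, hT⟩ := M.fT k F hF n hn
  have hnz : NeZero n := ⟨hn.ne'⟩
  -- the residues of the orders at `S`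
  let r : F → (S → ZMod n) := fun f P => ((ord P.1.ring f : ℤ) : ZMod n)
  -- representatives
  let c : (S → ZMod n) → F := fun v =>
    if h : ∃ f : F, f ≠ 0 ∧ (∀ P ∉ S, (n : ℤ) ∣ ord P.ring f) ∧ r f = v then h.choose else 1
  have hc : ∀ v, c v ≠ 0 ∧ ∀ P ∉ S, (n : ℤ) ∣ ord P.ring (c v) := by
    intro v
    by_cases h : ∃ f : F, f ≠ 0 ∧ (∀ P ∉ S, (n : ℤ) ∣ ord P.ring f) ∧ r f = v
    · simp only [c, dif_pos h]
      exact ⟨h.choose_spec.1, h.choose_spec.2.1⟩
    · simp only [c, dif_neg h]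
      exact ⟨one_ne_zero, fun P _ => by rw [FF.ord_one hF P]; exact dvd_zero _⟩
  have hcr : ∀ f : F, f ≠ 0 → (∀ P ∉ S, (n : ℤ) ∣ ord P.ring f) → r (c (r f)) = r f := by
    intro f hf0 hf
    have h : ∃ f' : F, f' ≠ 0 ∧ (∀ P ∉ S, (n : ℤ) ∣ ord P.ring f') ∧ r f' = r f :=
      ⟨f, hf0, hf, rfl⟩
    simp only [c, dif_pos h]
    exact h.choose_spec.2.2
  have hall : ∀ f : F, f ≠ 0 → (∀ P ∉ S, (n : ℤ) ∣ ord P.ring f) →
      ∃ t ∈ T, ∃ w : F, w ≠ 0 ∧ f = c (r f) * t * w ^ n := by
    intro f hf0 hf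
    have hc0 := (hc (r f)).1
    obtain ⟨t, ht, l, hl⟩ := hT (f / c (r f)) (div_ne_zero hf0 hc0) (fun P => by
      rw [FF.ord_div hF P hf0 hc0]
      by_cases hP : P ∈ S
      · have h1 := congrFun (hcr f hf0 hf) ⟨P, hP⟩
        simp only [r] at h1
        exact (ZMod.intCast_eq_intCast_iff_dvd_sub _ _ _).mp h1
      · exact dvd_sub (hf P hP) ((hc (r f)).2 P hP))
    have hl0 : l ≠ 0 := by
      rintro rfl
      rw [zero_pow hn.ne', mul_zero] at hl
      exact div_ne_zero hf0 hc0 hl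
    refine ⟨t, ht, l, hl0, ?_⟩
    rw [mul_assoc, ← hl, mul_div_cancel₀ _ hc0]
  refine ⟨((Finset.univ : Finset (S → ZMod n)) ×ˢ T).image (fun q => c q.1 * q.2) |>.filter
    (fun t => t ≠ 0 ∧ ∀ P ∉ S, (n : ℤ) ∣ ord P.ring t), fun t ht => (Finset.mem_filter.mp ht).2,
    fun f hf0 hf => ?_⟩
  obtain ⟨t, ht, w, hw, e⟩ := hall f hf0 hf
  have ht0 : t ≠ 0 := hT0 t ht
  have hct : c (r f) * t ≠ 0 := mul_ne_zero (hc _).1 ht0
  refine ⟨c (r f) * t, ?_, w, hw, e⟩
  rw [Finset.mem_filter]
  refine ⟨Finset.mem_image.mpr ⟨(r f, t), Finset.mem_product.mpr ⟨Finset.mem_univ _, ht⟩, rfl⟩,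
    hct, fun P hP => ?_⟩
  have h1 := hf P hP
  rw [e, FF.ord_mul hF P hct (pow_ne_zero _ hw), FF.ord_pow hF P hw] at h1
  exact (dvd_add_left (dvd_mul_right _ _)).mp h1

/-- BLOCK BCF (base change and finiteness). Over a constant extension of an algebraically closed
field of characteristic zero, the functions whose order is divisible by `n` outside the places over a
finite set `S` are finite in number up to `n`-th powers, and the representatives come from the
base. -/
theorem bCF {k Ω F M : Type} [Field k] [Field Ω] [Field F] [Field M] [Algebra k Ω] [Algebra k F]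
    [Algebra Ω M] [Algebra F M] [Algebra k M] [IsScalarTower k Ω M] [IsScalarTower k F M]
    [IsAlgClosed k] [IsAlgClosed Ω] [CharZero k] (hM : IsConstExt k Ω F M)
    (hF : IsFunctionField k F) {n : ℕ} (hn : 0 < n) (S : Finset (Place k F)) :
    ∃ T : Finset F, (∀ t ∈ T, t ≠ 0 ∧ ∀ P ∉ S, (n : ℤ) ∣ ord P.ring t) ∧
      ∀ h : M, h ≠ 0 → (∀ Q : Place Ω M, (∀ P ∈ S, ¬ Over Q P) → (n : ℤ) ∣ ord Q.ring h) →
        ∃ t ∈ T, ∃ w : M, w ≠ 0 ∧ h = algebraMap F M t * w ^ n := by
  have hMF := hM.isFunctionField hF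
  obtain ⟨T, hT0, hT⟩ := bcf2 hF hn S
  refine ⟨T, hT0, fun h hh hdiv => ?_⟩
  obtain ⟨f, w, hf, hw, e⟩ := bcf1 hM hF hn.ne' hh (fun Q φ hφ => hdiv Q (fun P _ hP =>
    not_over_of_gen hφ hP))
  have hfM : algebraMap F M f ≠ 0 := (_root_.map_ne_zero _).mpr hf
  obtain ⟨t, ht, w', hw', e'⟩ := hT f hf (fun P hP => by
    have h1 := hdiv (ab hM hF P) (fun P' hP' h' => by
      apply hP
      have h2 : ab hM hF P' = ab hM hF P := Over.eq hM hF (ab_over hM hF P') h'
      exact (ab_injective hM hF h2) ▸ hP')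
    rw [e, FF.ord_mul hMF _ hfM (pow_ne_zero _ hw), FF.ord_pow hMF _ hw,
      Over.ord_eq hM hF (ab_over hM hF P)] at h1
    exact (dvd_add_left (dvd_mul_right _ _)).mp h1)
  refine ⟨t, ht, algebraMap F M w' * w, mul_ne_zero ((_root_.map_ne_zero _).mpr hw') hw, ?_⟩
  rw [e, e', map_mul, map_pow, mul_pow]
  ring

end Pool.Agent.FF45
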