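import Mathlib
import Pool.Agent.Helper45.FF.BCF
import Pool.Agent.Helper37.UL.ConstE

/-!
# Base change and finiteness: the forms for use

* `bCFg`: `FF45.bCF` with the exceptional set given by finitely many functions.
* `bCFX`: the form inside a large field `U`, for `adjoin A X` and `adjoin E X`.
-/

set_option linter.unusedSectionVars false
set_option autoImplicit false

namespace Pool.Agent.FF45

open FF VC WithZero Polynomial IntermediateField
open scoped TensorProduct

/-- `bCF` with the exceptional set given by finitely many functions of the base. -/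
theorem bCFg {k Ω F M : Type} [Field k] [Field Ω] [Field F] [Field M] [Algebra k Ω] [Algebra k F]
    [Algebra Ω M] [Algebra F M] [Algebra k M] [IsScalarTower k Ω M] [IsScalarTower k F M]
    [IsAlgClosed k] [IsAlgClosed Ω] [CharZero k] (hM : IsConstExt k Ω F M)
    (hF : IsFunctionField k F) {n : ℕ} (hn : 0 < n) (G : Finset F) (hG : ∀ g ∈ G, g ≠ 0) :
    ∃ T : Finset F, (∀ t ∈ T, t ≠ 0) ∧
      ∀ h : M, h ≠ 0 → (∀ Q : Place Ω M, (∀ g ∈ G, ord Q.ring (algebraMap F M g) = 0) →
        (n : ℤ) ∣ ord Q.ring h) →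
        ∃ t ∈ T, ∃ w : M, w ≠ 0 ∧ h = algebraMap F M t * w ^ n := by
  classical
  have hMF := hM.isFunctionField hF
  obtain ⟨T, hT0, hT⟩ := bCF hM hF hn (G.biUnion fun g => (dv hF g).support)
  refine ⟨T, fun t ht => (hT0 t ht).1, fun h hh hdiv => hT h hh (fun Q hQ => ?_)⟩
  refine hdiv Q (fun g hg => ?_)
  rcases hM.over_or_gen hF Q with ⟨P, hP⟩ | ⟨φ, hφ⟩
  · rw [Over.ord_eq hM hF hP]
    by_contra h0
    refine hQ P (Finset.mem_biUnion.mpr ⟨g, hg, ?_⟩) hP
    rw [Finsupp.mem_support_iff, dv_apply]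
    exact h0
  · have h1 := lift_gen hM hF (dv hF g) hφ
    rwa [lift_dv hM hF (hG g hg), dv_apply] at h1

section field

variable {A E U : Type} [Field A] [Field E] [Field U] [Algebra A E] [Algebra A U] [Algebra E U]
  [IsScalarTower A E U]

/-- BLOCK BCF inside a large field `U`: `A ⊆ E` algebraically closed, `L = A(X)` a function field
over `A`, `LE = E(X)`. Finitely many elements of `L` represent all elements of `LE` whose order is
divisible by `n` at all places where finitely many given functions of `L` are units. -/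
theorem bCFX [IsAlgClosed A] [IsAlgClosed E] [CharZero A] (X : Set U) {x : U}
    (hx : Transcendental E x) (hxX : x ∈ adjoin A X) (hL : IsFunctionField A (adjoin A X))
    {n : ℕ} (hn : 0 < n) (G : Finset U) (hG : ∀ g ∈ G, g ≠ 0 ∧ g ∈ adjoin A X) :
    IsFunctionField E (adjoin E X) ∧
    ∃ T : Finset U, (∀ t ∈ T, t ≠ 0 ∧ t ∈ adjoin A X) ∧
      ∀ h : adjoin E X, h ≠ 0 →
        (∀ Q : Place E (adjoin E X), (∀ g : adjoin E X, (g : U) ∈ G → ord Q.ring g = 0) →
          (n : ℤ) ∣ ord Q.ring h) →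
        ∃ t ∈ T, ∃ w : adjoin E X, w ≠ 0 ∧ (h : U) = t * (w : U) ^ n := by
  classical
  have hxA : Transcendental A (⟨x, hxX⟩ : adjoin A X) := by
    intro h1
    apply hx
    have h2 : IsAlgebraic A x := by
      have h3 := h1.algebraMap (A := U)
      exact h3
    exact h2.extendScalars (algebraMap A E).injective
  have halg : Algebra.IsAlgebraic A⟮(⟨x, hxX⟩ : adjoin A X)⟯ (adjoin A X) := by
    obtain ⟨y, hy, hfin⟩ := id hL
    have h1 : Algebra.IsAlgebraic A⟮y⟯ (adjoin A X) := Algebra.IsAlgebraic.of_finite _ _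
    exact SC.isAlgebraic_exchange h1 hxA
  let i1 : Algebra (adjoin A X) (adjoin E X) := Helper37.UL.algAA A E X
  obtain ⟨hT, hC⟩ := Helper37.UL.isConstExt_adjoin (κ := E) X hx hxX halg
  have hval : ∀ z : adjoin A X,
      ((algebraMap (adjoin A X) (adjoin E X) z : adjoin E X) : U) = z := fun z => rfl
  obtain ⟨G', hG'⟩ : ∃ G' : Finset (adjoin A X), G' = G.subtype (fun g => g ∈ adjoin A X) :=
    ⟨_, rfl⟩
  obtain ⟨T, hT0, hTT⟩ := bCFg hC hL hn G' (fun g hg => by
    rw [hG', Finset.mem_subtype] at hg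
    rintro rfl
    exact (hG _ hg).1 rfl)
  refine ⟨hC.isFunctionField hL, T.image (fun t : adjoin A X => (t : U)), ?_, ?_⟩
  · intro t ht
    obtain ⟨t', ht', rfl⟩ := Finset.mem_image.mp ht
    exact ⟨fun h0 => hT0 t' ht' (Subtype.ext h0), t'.2⟩
  · intro h hh hdiv
    obtain ⟨t, ht, w, hw, e⟩ := hTT h hh (fun Q hQ => hdiv Q (fun g hg => by
      have hgX := (hG _ hg).2
      have h1 := hQ ⟨(g : U), hgX⟩ (by rw [hG', Finset.mem_subtype]; exact hg)
      have h2 : algebraMap (adjoin A X) (adjoin E X) ⟨(g : U), hgX⟩ = g := Subtype.ext (hval _)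
      rwa [h2] at h1))
    refine ⟨t, Finset.mem_image_of_mem _ ht, w, hw, ?_⟩
    have h3 := congrArg (fun z : adjoin E X => (z : U)) e
    simp only [MulMemClass.coe_mul, SubmonoidClass.coe_pow] at h3
    rw [h3, hval]

end field

end Pool.Agent.FF45
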