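import Pool.Agent.Helper13.PL.Grp
import Mathlib.GroupTheory.Frattini

/-!
# Project FF: the subgroup generated by the `ℓ`-th powers and the commutators
-/

set_option autoImplicit false
set_option linter.unusedSectionVars false

namespace Pool.Agent.FF45

open Subgroup

section grp

variable {G : Type*} [Group G]

/-- the subgroup generated by the `ℓ`-th powers and the commutators -/
def Dl (ℓ : ℕ) (G : Type*) [Group G] : Subgroup G :=
  closure {x : G | (∃ y : G, x = y ^ ℓ) ∨ ∃ y z : G, x = y * z * y⁻¹ * z⁻¹}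

variable {ℓ : ℕ}

theorem Dl_pow (y : G) : y ^ ℓ ∈ Dl ℓ G := subset_closure (Or.inl ⟨y, rfl⟩)

theorem Dl_comm (y z : G) : y * z * y⁻¹ * z⁻¹ ∈ Dl ℓ G := subset_closure (Or.inr ⟨y, z, rfl⟩)

/-- `Dl` is characteristic -/
theorem Dl_map (σ : G ≃* G) {x : G} (hx : x ∈ Dl ℓ G) : σ x ∈ Dl ℓ G := by
  have h1 : Dl ℓ G ≤ (Dl ℓ G).comap σ.toMonoidHom := by
    rw [Dl, closure_le]
    rintro x (⟨y, rfl⟩ | ⟨y, z, rfl⟩)
    · show σ (y ^ ℓ) ∈ Dl ℓ G
      rw [map_pow]
      exact Dl_pow _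
    · show σ (y * z * y⁻¹ * z⁻¹) ∈ Dl ℓ G
      rw [map_mul, map_mul, map_mul, map_inv, map_inv]
      exact Dl_comm _ _
  exact h1 hx

/-- `Dl` is contained in every subgroup which contains the `ℓ`-th powers and the commutators -/
theorem Dl_le {H : Subgroup G} (h1 : ∀ y : G, y ^ ℓ ∈ H) (h2 : ∀ y z : G, y * z * y⁻¹ * z⁻¹ ∈ H) :
    Dl ℓ G ≤ H := by
  rw [Dl, closure_le]
  rintro x (⟨y, rfl⟩ | ⟨y, z, rfl⟩)
  · exact h1 y
  · exact h2 y z

/-- in a finite `ℓ`-group `Dl` is contained in the Frattini subgroup -/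
theorem Dl_le_frattini [Finite G] [hl : Fact ℓ.Prime] (hG : IsPGroup ℓ G) :
    Dl ℓ G ≤ frattini G := by
  classical
  have hnil : Group.IsNilpotent G := hG.isNilpotent
  refine le_iInf₂ fun M hM => ?_
  have hN : M.Normal :=
    NormalizerCondition.normal_of_coatom _ Group.normalizerCondition_of_isNilpotent hM
  have hQ : IsPGroup ℓ (G ⧸ M) := hG.to_quotient M
  have hne : M ≠ ⊤ := hM.1
  have hnt : Nontrivial (G ⧸ M) := by
    rw [← not_subsingleton_iff_nontrivial]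
    intro hs
    apply hne
    rw [eq_top_iff]
    intro x _
    exact (QuotientGroup.eq_one_iff x).1 (Subsingleton.elim _ _)
  have hc : Nontrivial (Subgroup.center (G ⧸ M)) := hQ.center_nontrivial
  -- a central element of order `ℓ`
  obtain ⟨z, hz1⟩ := exists_ne (1 : Subgroup.center (G ⧸ M))
  obtain ⟨n, hn⟩ := (hQ.to_subgroup (Subgroup.center (G ⧸ M))) z
  obtain ⟨m, hm, hm1⟩ : ∃ m : ℕ, z ^ ℓ ^ m ≠ 1 ∧ z ^ ℓ ^ (m + 1) = 1 := by
    by_contra hcon
    push Not at hcon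
    have : ∀ m : ℕ, z ^ ℓ ^ m ≠ 1 := by
      intro m
      induction m with
      | zero => rw [pow_zero, pow_one]; exact hz1
      | succ m ih => exact hcon m ih
    exact this n hn
  obtain ⟨w, hw⟩ : ∃ w : G ⧸ M, w = ((z ^ ℓ ^ m : Subgroup.center (G ⧸ M)) : G ⧸ M) := ⟨_, rfl⟩
  have hw1 : w ≠ 1 := by
    rw [hw]
    intro h
    exact hm (Subtype.ext h)
  have hwl : w ^ ℓ = 1 := by
    rw [hw, ← Subgroup.coe_pow, ← pow_mul, ← pow_succ, hm1]
    rfl
  have hwc : ∀ g : G ⧸ M, g * w = w * g := by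
    intro g
    rw [hw]
    exact (Subgroup.mem_center_iff.1 (z ^ ℓ ^ m : Subgroup.center (G ⧸ M)).2 g)
  -- it generates the quotient
  have hgen : ∀ g : G ⧸ M, ∃ i : ℤ, g = w ^ i := by
    have h1 : M < (zpowers w).comap (QuotientGroup.mk' M) := by
      refine lt_of_le_of_ne (fun x hx => ?_) fun heq => ?_
      · show (x : G ⧸ M) ∈ zpowers w
        rw [(QuotientGroup.eq_one_iff x).2 hx]
        exact one_mem _
      · obtain ⟨x, hx⟩ := QuotientGroup.mk_surjective w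
        have h2 : x ∈ (zpowers w).comap (QuotientGroup.mk' M) := by
          show (x : G ⧸ M) ∈ zpowers w
          rw [hx]
          exact mem_zpowers w
        rw [← heq] at h2
        apply hw1
        rw [← hx]
        exact (QuotientGroup.eq_one_iff x).2 h2
    have h2 := hM.2 _ h1
    intro g
    obtain ⟨x, hx⟩ := QuotientGroup.mk_surjective g
    have h3 : x ∈ (zpowers w).comap (QuotientGroup.mk' M) := by rw [h2]; trivial
    have h4 : (x : G ⧸ M) ∈ zpowers w := h3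
    obtain ⟨i, hi⟩ := mem_zpowers_iff.1 h4
    exact ⟨i, by rw [hi, hx]⟩
  refine Dl_le (fun y => ?_) fun y z => ?_
  · rw [← QuotientGroup.eq_one_iff]
    obtain ⟨i, hi⟩ := hgen (y : G ⧸ M)
    rw [QuotientGroup.mk_pow, hi, ← zpow_natCast, ← zpow_mul, mul_comm, zpow_mul, zpow_natCast, hwl,
      one_zpow]
  · rw [← QuotientGroup.eq_one_iff]
    obtain ⟨i, hi⟩ := hgen (y : G ⧸ M)
    obtain ⟨j, hj⟩ := hgen (z : G ⧸ M)
    rw [QuotientGroup.mk_mul, QuotientGroup.mk_mul, QuotientGroup.mk_mul, QuotientGroup.mk_inv,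
      QuotientGroup.mk_inv, hi, hj]
    group

/-- an automorphism of a finite `ℓ`-group which is trivial modulo `Dl` has order a power of `ℓ` -/
theorem burnside_Dl [Finite G] [hl : Fact ℓ.Prime] (hG : IsPGroup ℓ G) (α : MulAut G)
    (hα : ∀ x : G, x⁻¹ * α x ∈ Dl ℓ G) : ∃ n : ℕ, α ^ ℓ ^ n = 1 := by
  refine Pool.Agent.PL13.exists_pow_eq_one hG α 0 fun x => ?_
  rw [pow_zero, pow_one]
  exact Dl_le_frattini hG (hα x)

end grp

end Pool.Agent.FF45
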