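import Pool.Agent.Helper59.PL.PXL
import Pool.Agent.Helper88.PL.TOWU

/-!
# Project FF, block LEV: levels over a field of characteristic zero

The blocks `PRL.StmtPXL` and `PRL.StmtTOWU` for any field `k` of characteristic zero.
-/

set_option autoImplicit false
set_option linter.unusedSectionVars false

namespace Pool.Agent.FF45

open VC IntermediateField Pool.Agent.SC
open Pool.Agent.L (L0 MM)
open Pool.Agent.LN (Geo)
open Pool.Agent.M (Moves OverPl inL0 moves_unique)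
open Pool.Agent.ML (BPl)
open Pool.Agent.TOW (Au AuE FGL over59 conj59 below59 above59 auE59 moves_mul59 exists_im
  inL59 rMM59 L0_le_MM)
open Pool.Agent.PDL (eig_root gal_L0)
open Pool.Agent.PRL

/-- `PRL.StmtPXL` for any field `k` of characteristic zero -/
theorem pXLc (k K0 E U : Type) [Field k] [CharZero k] [Field K0] [Field E] [Field U] [Algebra k K0]
    [Algebra k E] [Algebra E U] [Algebra K0 U] [Algebra k U] [IsScalarTower k E U]
    [IsScalarTower k K0 U] (ℓ : ℕ) (h : K0) (r : U) (hℓ : ℓ.Prime) (G : Geo k K0 E U ℓ h r)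
    (N : IntermediateField E U) (hN : TW.Lvl E K0 N) (hMN : MM E K0 r ≤ N) :
    -- an automorphism over `M` which fixes a place of `N` is trivial on `N`
    (∀ (T : U ≃+* U) (Q : Place E N), AuE E K0 T → T r = r → Moves T N Q Q → ∀ z ∈ N, T z = z) ∧
    ∀ b : Place E (L0 E K0 (U := U)), BPl ℓ h b →
      (∃ Q : Place E N, OverPl b Q) ∧ {Q : Place E N | OverPl b Q}.Finite ∧
      (∀ Q Q' : Place E N, OverPl b Q → OverPl b Q' →
        ∃ a : U ≃+* U, AuE E K0 a ∧ a r = r ∧ Moves a N Q Q') ∧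
      -- inertia
      ∀ Q : Place E N, OverPl b Q → ∃ (ι : U ≃+* U) (ζ : E), AuE E K0 ι ∧ IsPrimitiveRoot ζ ℓ ∧
        ι r = algebraMap E U ζ * r ∧ Moves ι N Q Q := by
  have hclE : IsAlgClosed E := G.clE
  have hcE : CharZero E := charZero_of_injective_algebraMap (algebraMap k E).injective
  have hcU : CharZero U := charZero_of_injective_algebraMap (algebraMap k U).injective
  have hgal : IsGalois (L0 E K0 (U := U)) U := gal_L0 G.normal
  have hgalM : IsGalois (MM E K0 r) U := G.cover.gal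
  have hr0 : r ∉ L0 E K0 (U := U) := by
    have h1 := G.rnot 1 one_pos hℓ.one_lt
    rwa [pow_one] at h1
  have hrn : r ≠ 0 := by
    rintro rfl
    exact hr0 (zero_mem _)
  have hLN : L0 E K0 (U := U) ≤ N := le_trans L0_le_MM hMN
  have hs : ∀ T : U ≃+* U, AuE E K0 T → ∀ x ∈ N, T x ∈ N := fun T hT =>
    hN.stab T hT.fixK fun e => ⟨e, hT.fixE e⟩
  have hconj : ∀ b : Place E (L0 E K0 (U := U)), BPl ℓ h b → ∀ Q Q' : Place E N, OverPl b Q →
      OverPl b Q' → ∃ a : U ≃+* U, AuE E K0 a ∧ a r = r ∧ Moves a N Q Q' := by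
    intro b hb Q Q' hQ hQ'
    obtain ⟨W, hW⟩ := over59 Q
    obtain ⟨W', hW'⟩ := over59 Q'
    obtain ⟨T, hT, hm⟩ := conj59 (L := MM E K0 r) hMN Q Q' (fun x hx => by
      rw [hW _ (hMN hx), hW' _ (hMN hx)]
      refine uniqueL59 G.ff hℓ G.rpow hrn hb (fun z hz => ?_) (fun z hz => ?_) hx
      · exact (hQ z hz (hLN hz)).trans (hW z _)
      · exact (hQ' z hz (hLN hz)).trans (hW' z _))
    exact ⟨T, auE59 fun x hx => hT x (L0_le_MM hx), hT r rMM59, hm⟩
  refine ⟨fun T Q hT hTr hQ => trivL59 G.cover hMN Q (hs T hT) hT hTr hQ, fun b hb =>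
    ⟨above59 hLN b, finiteL59 hLN hs (fgl_of_ff59 hN.ff) b, hconj b hb, fun Q hQ => ?_⟩⟩
  obtain ⟨T0, ζ, hT0, hζ, hT0r⟩ := exists_zeta59 (E := E) hℓ G.rpow hrn hr0
  obtain ⟨Q1, hQ1⟩ := exists_im (hs T0 hT0) (hs _ hT0.inv) (fun e => ⟨e, hT0.inv.fixE e⟩) Q
  have hbQ1 : OverPl b Q1 := by
    intro x hx hx'
    have h2 : T0 x = x := hT0.onL0 x hx
    have h3 := hQ x hx hx'
    have h4 := hQ1 x hx' (hs T0 hT0 x hx')
    have h5 : (⟨T0 x, hs T0 hT0 x hx'⟩ : N) = ⟨x, hx'⟩ := Subtype.ext h2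
    rw [h5] at h4
    exact h3.trans h4
  obtain ⟨T1, hT1, hT1r, hm⟩ := hconj b hb Q1 Q hbQ1 hQ
  refine ⟨T1 * T0, ζ, hT1.mul hT0, hζ, ?_, moves_mul59 (hs T0 hT0) hQ1 hm⟩
  show T1 (T0 r) = algebraMap E U ζ * r
  rw [hT0r, map_mul, hT1.fixE, hT1r]

/-- `PRL.StmtTOWU` for any field `k` of characteristic zero -/
theorem tOWUc (k K0 E U : Type) [Field k] [CharZero k] [Field K0] [Field E] [Field U] [Algebra k K0]
    [Algebra k E] [Algebra E U] [Algebra K0 U] [Algebra k U] [IsScalarTower k E U]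
    [IsScalarTower k K0 U] (ℓ : ℕ) (h : K0) (r : U) (hℓ : ℓ.Prime) (G : Geo k K0 E U ℓ h r)
    (m : ℕ) :
    TW.Lvl E K0 (TT E K0 r ℓ m) ∧ MM E K0 r ≤ TT E K0 r ℓ m ∧ IsPL E K0 ℓ (TT E K0 r ℓ m) := by
  have hFT : M.StmtFT := M.fT
  have hclE : IsAlgClosed E := G.clE
  have hcE : CharZero E := charZero_of_injective_algebraMap (algebraMap k E).injective
  have hn : Normal K0 U := G.normal
  have hcL : CharZero (L0 E K0 (U := U)) :=
    charZero_of_injective_algebraMap (algebraMap E (L0 E K0 (U := U))).injective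
  have hgal : IsGalois (L0 E K0 (U := U)) U := by
    let aKL : Algebra K0 (L0 E K0 (U := U)) :=
      (RingHom.codRestrict (algebraMap K0 U) (L0 E K0 (U := U)) inL59).toAlgebra
    have sKL : IsScalarTower K0 (L0 E K0 (U := U)) U := IsScalarTower.of_algebraMap_eq fun x => rfl
    have hnL : Normal (L0 E K0 (U := U)) U := Normal.tower_top_of_normal K0 (L0 E K0 (U := U)) U
    exact ⟨⟩
  have halg : Algebra.IsAlgebraic (L0 E K0 (U := U)) U := inferInstance
  have hff := (fGL88 hFT hℓ.pos G.ff G.cover m).2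
  exact ⟨⟨hff, fun x => L0_le_TT88 m (inL59 x), fun T h1 h2 =>
    map_TT88 hℓ.pos G.rpow ⟨h1, h2⟩ m⟩, MM_le_TT88 m, pl88 hℓ.pos G.rpow m⟩


end Pool.Agent.FF45
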