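import Pool.Agent.Helper13.FF.Defs
import Pool.Agent.Helper45.FF.LEV

/-!
# Project FF, blocks PX0 and TOW0
-/

set_option autoImplicit false

namespace Pool.Agent.FFS

/-- **BLOCK PX0.** -/
theorem stmtPX0 : StmtPX0 := by
  intro k K0 E U _ _ _ _ _ _ _ _ _ _ _ _ ℓ h r hℓ G N hN hMN
  exact FF45.pXLc k K0 E U ℓ h r hℓ G N hN hMN

/-- **BLOCK TOW0.** -/
theorem stmtTOW0 : StmtTOW0 := by
  intro k K0 E U _ _ _ _ _ _ _ _ _ _ _ _ ℓ h r hℓ G m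
  exact FF45.tOWUc k K0 E U ℓ h r hℓ G m

end Pool.Agent.FFS
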