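import Pool.Agent.Helper17.PL.CHN
import Pool.Agent.Helper45.FF.Grp

/-!
# Project FF: central series as levels

`S` is a normal subgroup of the absolute Galois group whose elements act trivially on the groups of
the levels which are abelian of exponent `ℓ` over `L0`.  For every level `N`, an `ℓ`-extension of
`L0`, there is a largest level `N₁ ≤ N` which is abelian of exponent `ℓ` over `L0`; and if it is not
`N` then there is a level `N'`, `N₁ ≤ N' < N`, such that the group of `N` over `N'` is central, of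
exponent `ℓ`, and `S` acts trivially on it.
-/

set_option autoImplicit false
set_option linter.unusedSectionVars false

namespace Pool.Agent.FF45

open VC IntermediateField Pool.Agent.SC
open Pool.Agent.L (L0 MM)
open Pool.Agent.TOW (Au AuE)
open Pool.Agent.PRL
open Pool.Agent.PRL.CHN17

noncomputable section

section chain

variable {k K0 E U : Type} [Field k] [Field K0] [Field E] [Field U] [Algebra k K0]
  [Algebra k E] [Algebra E U] [Algebra K0 U] [Algebra k U] [IsScalarTower k E U]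
  [IsScalarTower k K0 U] {N₀ N : IntermediateField E U} {ℓ : ℕ} {S : Subgroup (E ≃ₐ[k] E)}

theorem conjE {T : U ≃+* U} (hT : Au E K0 T) (hT' : Au E K0 T⁻¹) {b : U ≃+* U}
    (hb : AuE E K0 b) : AuE E K0 (T * b * T⁻¹) := by
  refine ⟨fun x => ?_, fun e => ?_⟩
  · change T (b (T⁻¹ _)) = _
    rw [hT'.fixK, hb.fixK, hT.fixK]
  · change T (b (T⁻¹ _)) = _
    obtain ⟨e', he'⟩ := hT'.presE e
    rw [he', hb.fixE, ← he']
    exact T.apply_symm_apply _

/-- the automorphisms which induce elements of `S` -/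
def AuS (K0 U : Type) [Field K0] [Field U] [Algebra E U] [Algebra K0 U]
    (S : Subgroup (E ≃ₐ[k] E)) : Subgroup (U ≃+* U) where
  carrier := {T | (Au E K0 T ∧ Au E K0 T⁻¹) ∧ InS S T ∧ InS S T⁻¹}
  mul_mem' := by
    rintro a b ⟨⟨h1, h2⟩, ⟨σ, hσ, h3⟩, ⟨σ', hσ', h3'⟩⟩ ⟨⟨h4, h5⟩, ⟨τ, hτ, h6⟩, ⟨τ', hτ', h6'⟩⟩
    refine ⟨⟨Pool.Agent.TOW.Au.mul79 h1 h4, ?_⟩, ⟨σ * τ, mul_mem hσ hτ, fun e => ?_⟩,
      ⟨τ' * σ', mul_mem hτ' hσ', fun e => ?_⟩⟩
    · rw [mul_inv_rev]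
      exact Pool.Agent.TOW.Au.mul79 h5 h2
    · show a (b _) = _
      rw [h6, h3]
      rfl
    · rw [mul_inv_rev]
      show b⁻¹ (a⁻¹ _) = _
      rw [h3', h6']
      rfl
  one_mem' := by
    refine ⟨⟨⟨fun _ => rfl, fun e => ⟨e, rfl⟩⟩, ?_⟩, ⟨1, one_mem _, fun _ => rfl⟩, ?_⟩
    · rw [inv_one]
      exact ⟨fun _ => rfl, fun e => ⟨e, rfl⟩⟩
    · rw [inv_one]
      exact ⟨1, one_mem _, fun _ => rfl⟩
  inv_mem' := by
    rintro a ⟨⟨h1, h2⟩, h3, h4⟩
    refine ⟨⟨h2, by rw [inv_inv]; exact h1⟩, h4, by rw [inv_inv]; exact h3⟩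

theorem aueS {a : U ≃+* U} (ha : AuE E K0 a) : a ∈ AuS K0 U S :=
  ⟨⟨Pool.Agent.TOW.AuE.au79 ha, Pool.Agent.TOW.AuE.au79 (Pool.Agent.TOW.AuE.inv79 ha)⟩,
    ⟨1, one_mem _, fun e => ha.fixE e⟩,
    ⟨1, one_mem _, fun e => (Pool.Agent.TOW.AuE.inv79 ha).fixE e⟩⟩

theorem ins_inv {T : U ≃+* U} (h : InS S T) : InS S T⁻¹ := by
  obtain ⟨σ, hσ, h1⟩ := h
  refine ⟨σ⁻¹, inv_mem hσ, fun e => ?_⟩
  show T.symm _ = _
  rw [RingEquiv.symm_apply_eq, h1]
  congr 1
  exact (σ.apply_symm_apply e).symm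

theorem mem_AuS [Algebra.IsAlgebraic k E] {T : U ≃+* U} (hT : Au E K0 T) (hS : InS S T) :
    T ∈ AuS K0 U S := ⟨⟨hT, au_inv17 (k := k) hT⟩, hS, ins_inv hS⟩

/-- `S` is normal -/
theorem conj_AuS [Algebra.IsAlgebraic k E] (hSn : S.Normal) {T R : U ≃+* U} (hT : Au E K0 T)
    (hR : R ∈ AuS K0 U S) : T * R * T⁻¹ ∈ AuS K0 U S := by
  have hT' : Au E K0 T⁻¹ := au_inv17 (k := k) hT
  obtain ⟨⟨h1, h2⟩, ⟨σ, hσ, h3⟩, -⟩ := hR
  refine mem_AuS (Pool.Agent.TOW.Au.mul79 (Pool.Agent.TOW.Au.mul79 hT h1) hT') ?_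
  obtain ⟨τ, hτ⟩ := Pool.Agent.TOW.Au.exists_gal79 (k := k) hT
  refine ⟨τ * σ * τ⁻¹, hSn.conj_mem σ hσ τ, fun e => ?_⟩
  show T (R (T⁻¹ (algebraMap E U e))) = algebraMap E U (τ (σ (τ⁻¹ e)))
  have h4 : T⁻¹ (algebraMap E U e) = algebraMap E U (τ⁻¹ e) := by
    show T.symm _ = _
    rw [RingEquiv.symm_apply_eq, hτ]
    congr 1
    exact (τ.apply_symm_apply e).symm
  rw [h4, h3, hτ]

/-- the automorphisms over `L0`, trivial on `N₀`, of exponent `ℓ` and central on `N`, also with the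
automorphisms which induce elements of `S` -/
structure CeS {k : Type} (E K0 : Type) {U : Type} [Field k] [Field E] [Field K0] [Field U]
    [Algebra k E] [Algebra E U] [Algebra K0 U] (ℓ : ℕ) (S : Subgroup (E ≃ₐ[k] E))
    (N₀ N : IntermediateField E U) (a : U ≃+* U) : Prop where
  aue : AuE E K0 a
  triv : ∀ y ∈ N₀, a y = y
  expo : ∀ y ∈ N, (a ^ ℓ) y = y
  cen : ∀ T ∈ AuS K0 U S, ∀ y ∈ N, a (T y) = T (a y)

/-- conjugation -/
theorem CeS.conj [Algebra.IsAlgebraic k E] (hSn : S.Normal) (hN₀ : TW.Lvl E K0 N₀)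
    (hN : TW.Lvl E K0 N) {T : U ≃+* U} (hT : Au E K0 T) {a : U ≃+* U}
    (ha : CeS E K0 ℓ S N₀ N a) : CeS E K0 ℓ S N₀ N (T⁻¹ * a * T) := by
  have hT' : Au E K0 T⁻¹ := au_inv17 (k := k) hT
  have e1 : ∀ x : U, T⁻¹ (T x) = x := fun x => T.symm_apply_apply x
  have e2 : ∀ x : U, T (T⁻¹ x) = x := fun x => T.apply_symm_apply x
  refine ⟨?_, fun y hy => ?_, fun y hy => ?_, fun R hR y hy => ?_⟩
  · have := conjE hT' (by rw [inv_inv]; exact hT) ha.aue
    rwa [inv_inv] at this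
  · change T⁻¹ (a (T y)) = y
    rw [ha.triv _ (hN₀.stab T hT.fixK hT.presE y hy), e1]
  · have h1 : (T⁻¹ * a * T) ^ ℓ = T⁻¹ * a ^ ℓ * T := by
      have := conj_pow (a := T⁻¹) (b := a) (i := ℓ)
      rw [inv_inv] at this
      exact this
    rw [h1]
    change T⁻¹ ((a ^ ℓ) (T y)) = y
    rw [ha.expo _ (hN.stab T hT.fixK hT.presE y hy), e1]
  · change T⁻¹ (a (T (R y))) = R (T⁻¹ (a (T y)))
    have h1 := ha.cen _ (conj_AuS hSn hT hR) (T y) (hN.stab T hT.fixK hT.presE y hy)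
    change a (T (R (T⁻¹ (T y)))) = T (R (T⁻¹ (a (T y)))) at h1
    rw [e1] at h1
    rw [h1, e1]

/-- the fixed field of these automorphisms -/
def NS {k : Type} (E K0 : Type) {U : Type} [Field k] [Field E] [Field K0] [Field U]
    [Algebra k E] [Algebra E U] [Algebra K0 U] (ℓ : ℕ) (S : Subgroup (E ≃ₐ[k] E))
    (N₀ N : IntermediateField E U) : IntermediateField E U where
  carrier := {x | x ∈ N ∧ ∀ a : U ≃+* U, CeS E K0 ℓ S N₀ N a → a x = x}
  mul_mem' := fun {x y} hx hy => ⟨mul_mem hx.1 hy.1, fun a ha => by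
    rw [map_mul, hx.2 a ha, hy.2 a ha]⟩
  add_mem' := fun {x y} hx hy => ⟨add_mem hx.1 hy.1, fun a ha => by
    rw [map_add, hx.2 a ha, hy.2 a ha]⟩
  algebraMap_mem' := fun e => ⟨N.algebraMap_mem e, fun a ha => ha.aue.fixE e⟩
  inv_mem' := fun x hx => ⟨inv_mem hx.1, fun a ha => by rw [map_inv₀, hx.2 a ha]⟩

/-- the fixed field of the automorphisms over `L0` which are, on `N`, products of `ℓ`-th powers and
commutators -/
def ND (E K0 : Type) {U : Type} [Field E] [Field K0] [Field U] [Algebra E U] [Algebra K0 U]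
    (ℓ : ℕ) {N : IntermediateField E U} (hN : TW.Lvl E K0 N) : IntermediateField E U where
  carrier := {x | x ∈ N ∧ ∀ (a : U ≃+* U) (ha : AuE E K0 a), res17 hN ha ∈ Dl ℓ (Gm hN) → a x = x}
  mul_mem' := fun {x y} hx hy => ⟨mul_mem hx.1 hy.1, fun a ha h => by
    rw [map_mul, hx.2 a ha h, hy.2 a ha h]⟩
  add_mem' := fun {x y} hx hy => ⟨add_mem hx.1 hy.1, fun a ha h => by
    rw [map_add, hx.2 a ha h, hy.2 a ha h]⟩
  algebraMap_mem' := fun e => ⟨N.algebraMap_mem e, fun a ha _ => ha.fixE e⟩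
  inv_mem' := fun x hx => ⟨inv_mem hx.1, fun a ha h => by rw [map_inv₀, hx.2 a ha h]⟩

/-- conjugation on the group of the level -/
def cj (hN : TW.Lvl E K0 N) (T : AuG E K0 U) : MulAut (Gm hN) where
  toFun γ := AlgEquiv.ofRingEquiv (f := ((tN hN T).symm.trans (γ : Nh hN ≃+* Nh hN)).trans (tN hN T))
    fun x => by
      have h1 : (tN hN T).symm (algebraMap (L0 E K0 (U := U)) (Nh hN) x) =
          algebraMap (L0 E K0 (U := U)) (Nh hN)
            ⟨(T : U ≃+* U)⁻¹ x, Pool.Agent.PDL.au_L0 T.2.2 x x.2⟩ := Subtype.ext rfl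
      show tN hN T (γ ((tN hN T).symm (algebraMap (L0 E K0 (U := U)) (Nh hN) x))) = _
      rw [h1, γ.commutes, ← h1]
      exact (tN hN T).apply_symm_apply _
  invFun γ := AlgEquiv.ofRingEquiv
    (f := ((tN hN T).trans (γ : Nh hN ≃+* Nh hN)).trans (tN hN T).symm)
    fun x => by
      have h1 : (tN hN T) (algebraMap (L0 E K0 (U := U)) (Nh hN) x) =
          algebraMap (L0 E K0 (U := U)) (Nh hN)
            ⟨(T : U ≃+* U) x, Pool.Agent.PDL.au_L0 T.2.1 x x.2⟩ := Subtype.ext rfl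
      show (tN hN T).symm (γ ((tN hN T) (algebraMap (L0 E K0 (U := U)) (Nh hN) x))) = _
      rw [h1, γ.commutes, ← h1]
      exact (tN hN T).symm_apply_apply _
  left_inv γ := by
    ext x
    show (((tN hN T).symm ((tN hN T) (γ ((tN hN T).symm ((tN hN T) x)))) : Nh hN) : U) = γ x
    rw [RingEquiv.symm_apply_apply, RingEquiv.symm_apply_apply]
  right_inv γ := by
    ext x
    show (((tN hN T) ((tN hN T).symm (γ ((tN hN T) ((tN hN T).symm x)))) : Nh hN) : U) = γ x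
    rw [RingEquiv.apply_symm_apply, RingEquiv.apply_symm_apply]
  map_mul' γ δ := by
    ext x
    show ((tN hN T (γ (δ ((tN hN T).symm x))) : Nh hN) : U) =
      (tN hN T (γ ((tN hN T).symm (tN hN T (δ ((tN hN T).symm x))))) : Nh hN)
    rw [RingEquiv.symm_apply_apply]

theorem cj_apply (hN : TW.Lvl E K0 N) (T : AuG E K0 U) (γ : Gm hN) (x : Nh hN) :
    ((cj hN T γ x : Nh hN) : U) = (T : U ≃+* U) (γ ((tN hN T).symm x) : Nh hN) := rfl

theorem cj_res (hN : TW.Lvl E K0 N) (T : AuG E K0 U) {a : U ≃+* U} (ha : AuE E K0 a) :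
    cj hN T (res17 hN ha) = res17 hN (conjE T.2.1 T.2.2 ha) := by
  ext x
  rw [cj_apply]
  rfl

theorem cj_mul (hN : TW.Lvl E K0 N) (T R : AuG E K0 U) (γ : Gm hN) :
    cj hN (T * R) γ = cj hN T (cj hN R γ) := by
  ext x
  rfl

theorem cj_one (hN : TW.Lvl E K0 N) (γ : Gm hN) : cj hN 1 γ = γ := by
  ext x
  rfl

end chain

end

end Pool.Agent.FF45
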